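import Pool.Agent.MWI.StmtsT

/-!
# Row KQI of squad MWI (MP_23468a_al): the scheme for isolated places
-/

set_option autoImplicit false

namespace Pool.Agent.MWI.H69

open Pool.Agent.Helper14_MV Pool.Agent.Helper2_MV Pool.Agent.MWF

theorem kqi (h1 : FstStmt) (h2 : KqaStmt) (h3 : WlfStmt) (h4 : WrtStmt) (h5 : WjrStmt)
    (h6 : Wh3Stmt) : KqiStmt := by
  intro n β ty hc P Q m hm hp hf
  rcases h1 β ty.md ty.iso P Q m hm hp with ⟨w, hw, hb⟩ | ⟨a, b, h, hh, hr, hne⟩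
  · exact h2 n β ty P Q m hm hp hf w hw hb
  have tr : (∃ w, RR β (bb a b P (0 :: (zz h ++ [0])) Q) w ∧ Bd P Q w) →
      KQ β P Q m := by
    rintro ⟨w, hw1, hw2⟩
    exact h2 n β ty P Q m hm hp hf w (rtr hr hw1) hw2
  by_cases hx : H3x β
  · obtain ⟨w, hw1, hw2⟩ := h6 n β ty hx a b P Q h m hm hp hh hr hne
    exact h2 n β ty P Q m hm hp hf w hw1 hw2
  by_cases hL : ∃ i ∈ P, a i + b i ≠ 0
  · apply tr
    refine h3 n β ty ?_ a b P Q h m hp hL
    rcases hc with hc | hc | hc | hc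
    · exact Or.inr (Or.inr hc)
    · exact Or.inr (Or.inl hc)
    · exact Or.inl hc
    · exact absurd hc hx
  have hR : ∃ i ∈ Q, a i + b i ≠ 0 := by
    obtain ⟨i, hi, hi0⟩ := hne
    rcases List.mem_append.1 hi with hi | hi
    · exact absurd ⟨i, hi, hi0⟩ hL
    · exact ⟨i, hi, hi0⟩
  rcases hc with hc | hc | hc | hc
  · exact tr (h4 n β ty (Or.inr hc) a b P Q h m hp hR)
  · exact tr (h4 n β ty (Or.inl hc) a b P Q h m hp hR)
  · have hP : ∀ i ∈ P, a i + b i = 0 := by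
      intro i hi
      by_contra h0
      exact hL ⟨i, hi, h0⟩
    obtain ⟨w, hw1, hw2⟩ := h5 n β ty hc a b P Q h m hm hp hh hr hP hR
    exact h2 n β ty P Q m hm hp hf w hw1 hw2
  · exact absurd hc hx

end Pool.Agent.MWI.H69
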